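import Pool.Agent.H57.AR.Targets

/-!
# Row CPSR of the board `ar_modules`: the structure of the fibres
-/

set_option autoImplicit false

namespace Pool.Agent.H47.AR

open Pool.Agent.H68.BP Pool.Agent.H58.SF Pool.Agent.H53.GC Pool.Agent.H53.NR Pool.Agent.H53.GR
open Pool.Agent.H57.SO (Pal Col vt Exa Sb FBl Sbn Bh fib sigF SF)
open Pool.Agent.H57.EQ (Cx)
open Pool.Agent.H57.AR
open Function

/-- the relations depend only on the types of the tuples in `𝔹` -/
theorem cpsr_rel {V : Type} {σ ρ : Sig} [LinearOrder V] {𝔸 : Str σ V} {𝔹 : Str ρ V} {M : ℕ}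
    (h : Base 𝔸 𝔹 M) : ∀ (s : Option (Fin σ.m)) (z z' : Fin (arP σ M s) → V),
    relP 𝔸 M s z → tp 𝔹 z' = tp 𝔹 z → relP 𝔸 M s z'
  | none, _, _, _, _ => trivial
  | some l, z, z', h1, h2 => h.tyi l z z' h1 h2

theorem pf_CPSR : T_CPSR := by
  intro σ ρ V S X _ _ P 𝔸 𝔹 M c hst
  have h3 := hst.base.three
  refine ⟨hst.base.ne, by omega, fun l => ⟨(hst.base.ar l).1, (hst.base.ar l).2.le⟩,
    hst.base.univ, ?_⟩
  intro i x y hx hs
  obtain ⟨hinj, hty, hrel⟩ := hx
  have hyi : Injective y := fun a b h => hinj (hs.1 a b h)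
  have hB : ∀ (l : Fin ρ.m) (a : Fin (ρ.ar l) → _), 𝔹 l (fun i => y (a i)) ↔
      𝔹 l (fun i => x (a i)) := fun l a => by
    rw [hs.2 l a]
    exact and_iff_left (fun i j h => by rw [hinj h])
  refine ⟨hyi, ?_, ?_⟩
  · intro a
    rw [← hty a]
    refine (hst.lnk.eq _ _ _ _).2 ⟨iff_of_true rfl rfl, fun l f => ?_⟩
    have := hB l (fun _ => a)
    simpa using this
  · refine cpsr_rel hst.base _ _ _ hrel ?_
    refine Prod.ext ?_ ?_
    · funext a b
      exact propext ⟨fun h => congrArg x (hyi h), fun h => congrArg y (hinj h)⟩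
    · funext l z
      exact propext (hB l fun i => _)

end Pool.Agent.H47.AR
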