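import Pool.Agent.H57.AR.Targets
import Pool.Agent.H57.SO.CYP

/-!
# Row CYBR of the board `ar_modules`: cyclic behaviours
-/

set_option autoImplicit false

namespace Pool.Agent.H47.AR

open Pool.Agent.H68.BP Pool.Agent.H58.SF Pool.Agent.H53.GC Pool.Agent.H53.NR Pool.Agent.H53.GR
open Pool.Agent.H57.SO (Pal Col vt Bh)
open Pool.Agent.H57.EQ (Cx)
open Pool.Agent.H57.AR
open Function

theorem pf_CYBR : T_CYBR := by
  intro σ V S X P 𝔸 c hI p hp τ κ hκ hτ
  have : NeZero p := ⟨hp.ne_zero⟩
  -- rotations
  have hrot : ∀ j : ZMod p, Bh P 𝔸 c τ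
      (fun t t' A => κ (fun i => t (i + j)) (fun i => t' (i + j)) {i | i + j ∈ A}) := by
    intro j W _ G
    obtain ⟨ψ, h1, h2, h3⟩ := hκ W (fun i => G (i + j))
    refine ⟨ψ, fun l z hz => h1 l z fun i => hz (i + j), fun w => ?_, fun u w => ?_⟩
    · rw [h2]
      exact Pool.Agent.H57.SO.tau_shift hτ j (fun i => vt P c (G i w))
    · rw [h3]
      rfl
  -- intersections over sets of rotations
  have hall : ∀ n : ℕ, Bh P 𝔸 c τ (fun t t' A => ∀ m : ℕ, m ≤ n →
      κ (fun i => t (i + (m : ZMod p))) (fun i => t' (i + (m : ZMod p)))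
        {i | i + (m : ZMod p) ∈ A}) := by
    intro n
    induction n with
    | zero =>
      intro W _ G
      obtain ⟨ψ, h1, h2, h3⟩ := hrot 0 W G
      refine ⟨ψ, h1, h2, fun u w => ?_⟩
      rw [h3]
      constructor
      · intro h m hm
        obtain rfl : m = 0 := by omega
        simpa using h
      · intro h
        simpa using h 0 le_rfl
    | succ n ih =>
      intro W _ G
      obtain ⟨ψ, h1, h2, h3⟩ := hI (ZMod p) τ _ _ ih (hrot ((n + 1 : ℕ) : ZMod p)) W G
      refine ⟨ψ, h1, h2, fun u w => ?_⟩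
      rw [h3]
      constructor
      · rintro ⟨h4, h5⟩ m hm
        rcases Nat.lt_or_ge n m with h6 | h6
        · obtain rfl : m = n + 1 := by omega
          exact h5
        · exact h4 m h6
      · intro h
        exact ⟨fun m hm => h m (by omega), h (n + 1) le_rfl⟩
  refine ⟨_, hall p, fun t t' A => ?_⟩
  -- all rotations
  have hiff : ∀ (t t' : ZMod p → S) (A : Set (ZMod p)),
      (∀ m : ℕ, m ≤ p → κ (fun i => t (i + (m : ZMod p)))
      (fun i => t' (i + (m : ZMod p))) {i | i + (m : ZMod p) ∈ A}) ↔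
      ∀ j : ZMod p, κ (fun i => t (i + j)) (fun i => t' (i + j)) {i | i + j ∈ A} := by
    intro t t' A
    constructor
    · intro h j
      have h1 := h j.val (ZMod.val_lt j).le
      rwa [ZMod.natCast_val, ZMod.cast_id] at h1
    · intro h m _
      exact h _
  refine (hiff (fun i => t (i + 1)) (fun i => t' (i + 1)) {i | i + 1 ∈ A}).trans
    (Iff.trans ?_ (hiff t t' A).symm)
  constructor
  · intro h j
    have h1 := h (j - 1)
    have e1 : ∀ t : ZMod p → S, (fun i => t (i + (j - 1) + 1)) = fun i => t (i + j) := by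
      intro t
      funext i
      congr 1
      ring
    have e2 : {i : ZMod p | i + (j - 1) ∈ {i | i + 1 ∈ A}} = {i | i + j ∈ A} := by
      ext i
      simp only [Set.mem_ofPred_eq]
      have : i + (j - 1) + 1 = i + j := by ring
      rw [this]
    rw [e1, e1, e2] at h1
    exact h1
  · intro h j
    have h1 := h (j + 1)
    have e1 : ∀ t : ZMod p → S, (fun i => t (i + j + 1)) = fun i => t (i + (j + 1)) := by
      intro t
      funext i
      congr 1
      ring
    have e2 : {i : ZMod p | i + j ∈ {i | i + 1 ∈ A}} = {i | i + (j + 1) ∈ A} := by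
      ext i
      simp only [Set.mem_ofPred_eq]
      have : i + j + 1 = i + (j + 1) := by ring
      rw [this]
    rw [e1, e1, e2]
    exact h1

end Pool.Agent.H47.AR
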